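import Pool.Agent.Lib.MP_3a897b_coQ.Pos
import Pool.Agent.Lib.MP_3a897b_co.EvenH

/-!
# The least step is not negative
-/

namespace Pool.Agent.Lib.MP_3a897b_coQ

open Pool.Agent.Lib.MP_3a897b_co

variable {n N σ d ρ : ℤ} {p η : ℕ}

theorem sub_neg_dvd (hp : n ∣ p * σ + d) : n ∣ p * σ - (-d) := by
  have e : (p : ℤ) * σ - (-d) = p * σ + d := by ring
  rw [e]; exact hp

theorem pN_le_neg (D : Data n (2 * η) (2 * ρ) N σ) (M : MinStep n N σ p) (hd0 : 1 ≤ d)
    (hd : d ≤ N - 1) (hp : n ∣ p * σ + d) (hp2 : 2 ≤ p) : (p : ℤ) * N ≤ n - d := by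
  have hnpos := D.npos
  have hδabs : |(-d)| ≤ N - 1 := by rw [abs_le]; constructor <;> omega
  obtain ⟨i, hi1, hi2, hi3⟩ := M.surj hnpos D.hN hδabs (sub_neg_dvd hp) (m := 1) le_rfl
    (by omega)
  obtain ⟨h2, -⟩ := M.range hnpos hi1 hi2
  have hp0 : (0 : ℤ) ≤ p := by positivity
  have h3 : (p : ℤ) * N ≤ p * (((i : ℤ) * σ) % n) := mul_le_mul_of_nonneg_left h2 hp0
  rw [hi3] at h3
  have h4 : d * 1 ≤ d * i := mul_le_mul_of_nonneg_left (by exact_mod_cast hi1) (by omega)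
  push_cast at h3
  nlinarith

/-- Description of the exceptional indices. -/
theorem mem_exc_iff (D : Data n (2 * η) (2 * ρ) N σ) (M : MinStep n N σ p) {b : ℤ} (hb1 : 1 ≤ b)
    (hb2 : b ≤ N) {i : ℕ} : i ∈ exc n p σ b (2 * ρ) ↔
      1 ≤ i ∧ i < p ∧ ((i : ℤ) * σ) % n < b + 2 * ρ := by
  have hnpos := D.npos
  have hn := D.hn
  have hr := D.hr
  have hr0 := D.hr0
  push_cast at hn hr
  rw [exc, Finset.mem_filter, Finset.mem_range]
  rcases Nat.eq_zero_or_pos i with h0 | h0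
  · subst h0
    constructor
    · rintro ⟨-, h1⟩
      exfalso
      have h2 : (((0 : ℕ) : ℤ) * σ - b) % n = n - b := by
        apply emod_unique
        · omega
        · omega
        · exact ⟨-1, by push_cast; ring⟩
      rw [h2] at h1
      omega
    · rintro ⟨h1, -⟩
      omega
  · have key : i < p → (((i : ℤ) * σ - b) % n = ((i : ℤ) * σ) % n - b) := by
      intro hip
      have h4 := M.range hnpos h0 hip
      have h6 : n ∣ (i : ℤ) * σ - ((i : ℤ) * σ) % n := Int.dvd_self_sub_emod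
      apply emod_unique
      · omega
      · have := D.hN
        omega
      · have e1 : (i : ℤ) * σ - b - (((i : ℤ) * σ) % n - b) =
            (i : ℤ) * σ - ((i : ℤ) * σ) % n := by ring
        rw [e1]; exact h6
    constructor
    · rintro ⟨h1, h2⟩
      rw [key h1] at h2
      exact ⟨h0, h1, by omega⟩
    · rintro ⟨-, h1, h2⟩
      rw [key h1]
      exact ⟨h1, by omega⟩

theorem exc_upper (D : Data n (2 * η) (2 * ρ) N σ) (M : MinStep n N σ p) (hd0 : 1 ≤ d)
    (hd : d ≤ N - 1) (hp : n ∣ p * σ + d) {b : ℤ} (hb1 : 1 ≤ b) (hb2 : b ≤ N) :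
    n * (exc n p σ b (2 * ρ)).card ≤ p * (b + 2 * ρ - 1) + d * (p - 1) := by
  classical
  have hnpos := D.npos
  have hr0 := D.hr0
  have hp1 : (1 : ℤ) ≤ p := by exact_mod_cast M.1
  have hδabs : |(-d)| ≤ N - 1 := by rw [abs_le]; constructor <;> omega
  set X : ℤ := p * (b + 2 * ρ - 1) + d * (p - 1) with hX
  have hX0 : 0 ≤ X := by
    have h1 : 0 ≤ (p : ℤ) * (b + 2 * ρ - 1) := mul_nonneg (by omega) (by omega)
    have h2 : 0 ≤ d * ((p : ℤ) - 1) := mul_nonneg (by omega) (by omega)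
    omega
  have hex : ∀ i : ℕ, i ∈ exc n p σ b (2 * ρ) → ∃ m : ℕ, 1 ≤ m ∧ m < p ∧
      (p : ℤ) * (((i : ℤ) * σ) % n) = -d * i + n * m := by
    intro i hi
    rw [mem_exc_iff D M hb1 hb2] at hi
    exact M.line hnpos D.hN hδabs (sub_neg_dvd hp) hi.1 hi.2.1
  choose! F hF1 hF2 hF3 using hex
  have hinj : Set.InjOn F (exc n p σ b (2 * ρ) : Finset ℕ) := by
    intro i hi j hj hij
    have hi' := hF3 i hi
    have hj' := hF3 j hj
    rw [Finset.mem_coe, mem_exc_iff D M hb1 hb2] at hi hj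
    rw [← hij] at hj'
    rcases Nat.lt_trichotomy i j with h | h | h
    · exact absurd h (M.line_inj D.hN hδabs hi.1 hj.2.1 hi' hj')
    · exact h
    · exact absurd h (M.line_inj D.hN hδabs hj.1 hi.2.1 hj' hi')
  have hsub : (exc n p σ b (2 * ρ)).image F ⊆ Finset.Icc 1 (X / n).toNat := by
    intro m hm
    rw [Finset.mem_image] at hm
    obtain ⟨i, hi, rfl⟩ := hm
    have h1 := hF1 i hi
    have h3 := hF3 i hi
    rw [mem_exc_iff D M hb1 hb2] at hi
    rw [Finset.mem_Icc]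
    refine ⟨h1, ?_⟩
    have h4 : ((F i : ℕ) : ℤ) ≤ X / n := by
      rw [Int.le_ediv_iff_mul_le hnpos]
      have h5 : (p : ℤ) * (((i : ℤ) * σ) % n) ≤ p * (b + 2 * ρ - 1) :=
        mul_le_mul_of_nonneg_left (by omega) (by omega)
      have h6 : d * (i : ℤ) ≤ d * (p - 1) := mul_le_mul_of_nonneg_left (by omega) (by omega)
      linarith
    omega
  have h1 := Finset.card_le_card hsub
  rw [Finset.card_image_of_injOn hinj, Nat.card_Icc] at h1
  have h2 : ((exc n p σ b (2 * ρ)).card : ℤ) ≤ X / n := by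
    have h3 : 0 ≤ X / n := Int.ediv_nonneg hX0 hnpos.le
    omega
  calc n * ((exc n p σ b (2 * ρ)).card : ℤ) ≤ n * (X / n) :=
        mul_le_mul_of_nonneg_left h2 hnpos.le
    _ ≤ X := Int.mul_ediv_self_le hnpos.ne'

theorem exc_mono (D : Data n (2 * η) (2 * ρ) N σ) (M : MinStep n N σ p) {b b' : ℤ}
    (hb1 : 1 ≤ b) (hbb : b ≤ b') (hb2 : b' ≤ N) :
    (exc n p σ b (2 * ρ)).card ≤ (exc n p σ b' (2 * ρ)).card := by
  apply Finset.card_le_card
  intro i hi
  rw [mem_exc_iff D M hb1 (by omega)] at hi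
  rw [mem_exc_iff D M (by omega) hb2]
  exact ⟨hi.1, hi.2.1, by omega⟩

theorem exc_diff (D : Data n (2 * η) (2 * ρ) N σ) (M : MinStep n N σ p) (hd0 : 1 ≤ d)
    (hd : d ≤ N - 1) (hp : n ∣ p * σ + d) (hpN : (p : ℤ) * N ≤ n - d) :
    (exc n p σ (N + 1 - d) (2 * ρ)).card ≤ (exc n p σ 1 (2 * ρ)).card + 1 := by
  classical
  have hnpos := D.npos
  have hp1 : (1 : ℤ) ≤ p := by exact_mod_cast M.1
  have hN := D.hN
  have hδabs : |(-d)| ≤ N - 1 := by rw [abs_le]; constructor <;> omega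
  have h1 : (exc n p σ (N + 1 - d) (2 * ρ) \ exc n p σ 1 (2 * ρ)).card ≤ 1 := by
    rw [Finset.card_le_one]
    have key : ∀ i ∈ (exc n p σ (N + 1 - d) (2 * ρ) \ exc n p σ 1 (2 * ρ)),
        ∀ j ∈ (exc n p σ (N + 1 - d) (2 * ρ) \ exc n p σ 1 (2 * ρ)), ¬ i < j := by
      intro i hi j hj hij
      rw [Finset.mem_sdiff, mem_exc_iff D M (by omega) (by omega),
        mem_exc_iff D M le_rfl D.hN] at hi hj
      obtain ⟨⟨hi1, hi2, hi3⟩, hi4⟩ := hi
      obtain ⟨⟨hj1, hj2, hj3⟩, hj4⟩ := hj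
      have hi5 : 1 + 2 * ρ ≤ ((i : ℤ) * σ) % n := by
        by_contra hcon
        exact hi4 ⟨hi1, hi2, by omega⟩
      have hj5 : 1 + 2 * ρ ≤ ((j : ℤ) * σ) % n := by
        by_contra hcon
        exact hj4 ⟨hj1, hj2, by omega⟩
      obtain ⟨m, -, -, hm⟩ := M.line hnpos D.hN hδabs (sub_neg_dvd hp) hi1 hi2
      obtain ⟨m', -, -, hm'⟩ := M.line hnpos D.hN hδabs (sub_neg_dvd hp) hj1 hj2
      have hne : m ≠ m' := by
        rintro rfl
        exact M.line_inj D.hN hδabs hi1 hj2 hm hm' hij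
      set y := ((i : ℤ) * σ) % n
      set z := ((j : ℤ) * σ) % n
      have hji : (j : ℤ) - i ≤ p - 2 := by omega
      have hji0 : 0 ≤ (j : ℤ) - i := by omega
      have k1 : d * ((j : ℤ) - i) ≤ d * (p - 2) := mul_le_mul_of_nonneg_left hji (by omega)
      have k2 : 0 ≤ d * ((j : ℤ) - i) := mul_nonneg (by omega) hji0
      have k3 : (p : ℤ) * (z - y) ≤ p * (N - 1 - d) :=
        mul_le_mul_of_nonneg_left (by omega) (by omega)
      have k4 : (p : ℤ) * (y - z) ≤ p * (N - 1 - d) :=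
        mul_le_mul_of_nonneg_left (by omega) (by omega)
      have k5 : n * ((m' : ℤ) - m) = p * (z - y) + d * (j - i) := by linarith
      rcases Nat.lt_or_gt_of_ne hne with h | h
      · have k6 : n * 1 ≤ n * ((m' : ℤ) - m) :=
          mul_le_mul_of_nonneg_left (by omega) hnpos.le
        nlinarith
      · have k6 : n * 1 ≤ n * ((m : ℤ) - m') :=
          mul_le_mul_of_nonneg_left (by omega) hnpos.le
        nlinarith
    intro i hi j hj
    rcases Nat.lt_trichotomy i j with h | h | h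
    · exact absurd h (key i hi j hj)
    · exact h
    · exact absurd h (key j hj i hi)
  have h2 : exc n p σ (N + 1 - d) (2 * ρ) ⊆
      exc n p σ 1 (2 * ρ) ∪ (exc n p σ (N + 1 - d) (2 * ρ) \ exc n p σ 1 (2 * ρ)) := by
    intro i hi
    rw [Finset.mem_union, Finset.mem_sdiff]
    by_cases h : i ∈ exc n p σ 1 (2 * ρ)
    · exact Or.inl h
    · exact Or.inr ⟨hi, h⟩
  have h3 := Finset.card_le_card h2
  have h4 := Finset.card_union_le (exc n p σ 1 (2 * ρ))
    (exc n p σ (N + 1 - d) (2 * ρ) \ exc n p σ 1 (2 * ρ))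
  omega

theorem neg_false (D : Data n (2 * η) (2 * ρ) N σ) (hodd : n % 2 = 1) (M : MinStep n N σ p)
    (hd0 : 1 ≤ d) (hd : d ≤ N - 1) (hp : n ∣ p * σ + d)
    {m : ℤ} (hm : n = 4 * η + m) (hm2 : 2 ≤ m) (hbig : 8 * (η : ℤ) + 2 * m ≤ m * m) :
    False := by
  have hnpos := D.npos
  have hn := D.hn
  have hr := D.hr
  have hr0 := D.hr0
  push_cast at hn hr
  have hN := D.hN
  have hp1 : (1 : ℤ) ≤ p := by exact_mod_cast M.1
  obtain ⟨c, hc, hhits⟩ := neg_step D hodd (by omega) hp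
  have hwin : ∀ b b' : ℤ, 1 ≤ b → 1 ≤ b' → b + b' = N + 2 - d →
      d ≤ 4 * c + (exc n p σ b (2 * ρ)).card + (exc n p σ b' (2 * ρ)).card := by
    intro b b' h1 h2 h3
    have w := D.window (b := b) (d := d) h1 (by omega) (by omega)
    have e : N + 2 - b - d = b' := by omega
    rw [e] at w
    have w1 := hhits b h1 (by omega)
    have w2 := hhits b' h2 (by omega)
    omega
  rcases Nat.lt_or_ge 1 p with hp2 | hp2
  · have hpN := pN_le_neg D M hd0 hd hp hp2
    have h2p := two_p_lt D hd0 hpN hm hm2 hbig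
    have e1 : (p : ℤ) * n = p * (4 * η) + p * m := by rw [hm]; ring
    have e2 : d * n = d * (4 * η) + d * m := by rw [hm]; ring
    have k1 : d * (2 * (p : ℤ) - 1) ≤ d * m := mul_le_mul_of_nonneg_left (by omega) (by omega)
    have k2 : (p : ℤ) * 1 ≤ d * p := by
      rw [mul_comm (p : ℤ) 1]; exact mul_le_mul_of_nonneg_right hd0 (by omega)
    rcases Int.emod_two_eq_zero_or_one d with hev | hov
    · -- `d - 4 c` even
      have g1 := hwin 1 (N + 1 - d) le_rfl (by omega) (by ring)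
      have g2 := exc_diff D M hd0 hd hp hpN
      have g3 := exc_upper D M hd0 hd hp (b := 1) le_rfl hN
      have g4 : d - 4 * c ≤ 2 * ((exc n p σ 1 (2 * ρ)).card : ℤ) := by omega
      have g5 := mul_le_mul_of_nonneg_left g4 hnpos.le
      nlinarith
    · -- `d - 4 c` odd
      have g1 := hwin (N + 2 - d - (N + 3 - d) / 2) ((N + 3 - d) / 2) (by omega) (by omega)
        (by ring)
      have g2 := exc_mono D M (b := N + 2 - d - (N + 3 - d) / 2) (b' := (N + 3 - d) / 2)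
        (by omega) (by omega) (by omega)
      have g3 := exc_upper D M hd0 hd hp (b := (N + 3 - d) / 2) (by omega) (by omega)
      have g4 : d - 4 * c + 1 ≤ 2 * ((exc n p σ ((N + 3 - d) / 2) (2 * ρ)).card : ℤ) := by
        omega
      have g5 := mul_le_mul_of_nonneg_left g4 hnpos.le
      have g6 : (p : ℤ) * (2 * ((N + 3 - d) / 2)) ≤ p * (N + 3 - d) :=
        mul_le_mul_of_nonneg_left (by omega) (by omega)
      have e3 : (p : ℤ) * (N + 2 * ρ) = p * (n - 2 * η - 1) := by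
        have : N + 2 * ρ = n - 2 * η - 1 := by omega
        rw [this]
      nlinarith
  · have hp' : p = 1 := le_antisymm hp2 M.1
    subst hp'
    have g1 := hwin 1 (N + 1 - d) le_rfl (by omega) (by ring)
    have g2 := D.exc_le (p := 1) (b := 1) le_rfl le_rfl (by omega)
    have g3 := D.exc_le (p := 1) (b := N + 1 - d) le_rfl (by omega) (by omega)
    have g4 : d ≤ 4 * c := by omega
    have g5 : 1 ≤ c := by omega
    have g6 : (η : ℤ) * d ≤ η * (4 * c) := mul_le_mul_of_nonneg_left g4 (by positivity)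
    have g7 : 1 * 2 ≤ c * m := mul_le_mul g5 hm2 (by omega) (by omega)
    rw [hm] at hc
    push_cast at hc
    nlinarith

end Pool.Agent.Lib.MP_3a897b_coQ
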