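import Pool.Agent.Lib.MP_3a897b_coQ.PosSum
import Pool.Agent.Lib.MP_3a897b_coQ.Neg

/-!
# The necessary condition
-/

namespace Pool.Agent.Lib.MP_3a897b_coQ

open Pool.Agent.Lib.MP_3a897b_co

variable {n N σ δ ρ : ℤ} {p η : ℕ}

theorem zero_false (D : Data n (2 * η) (2 * ρ) N σ) (M : MinStep n N σ p) (hN3 : 3 ≤ N)
    (hp : n ∣ p * σ) : False := by
  have hnpos := D.npos
  have key : ∀ i : ℕ, ((i : ℤ) * σ) % n = 0 ∨ N ≤ ((i : ℤ) * σ) % n := by
    intro i
    have hp1 := M.1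
    have h1 : ((i : ℤ) * σ) % n = (((i % p : ℕ) : ℤ) * σ) % n := by
      apply emod_congr
      have h3 : (i : ℤ) = p * ((i / p : ℕ) : ℤ) + ((i % p : ℕ) : ℤ) := by
        exact_mod_cast (Nat.div_add_mod i p).symm
      have e : (i : ℤ) * σ - ((i % p : ℕ) : ℤ) * σ = ((i / p : ℕ) : ℤ) * (p * σ) := by
        rw [h3]; ring
      rw [e]
      exact Dvd.dvd.mul_left hp _
    rw [h1]
    rcases Nat.eq_zero_or_pos (i % p) with h0 | h0
    · left; rw [h0]; simp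
    · right; exact (M.range hnpos h0 (Nat.mod_lt _ (by omega))).1
  rcases D.cov 2 (by omega) (by omega) with ⟨i, -, hi⟩ | ⟨i, -, hi⟩
  · rcases key i with h | h <;> omega
  · rcases key i with h | h <;> omega

theorem exists_min (D : Data n (2 * η) (2 * ρ) N σ) (hN3 : 3 ≤ N) :
    ∃ (p : ℕ) (δ : ℤ), MinStep n N σ p ∧ |δ| ≤ N - 1 ∧ n ∣ (p : ℤ) * σ - δ := by
  classical
  have hhalf := D.half
  have hex : ∃ p : ℕ, 1 ≤ p ∧ ∃ δ : ℤ, |δ| ≤ N - 1 ∧ n ∣ (p : ℤ) * σ - δ := by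
    have hcard : 1 < (hits n (2 * η) σ 1 N).card := by omega
    rw [Finset.one_lt_card] at hcard
    obtain ⟨i, hi, j, hj, hij⟩ := hcard
    rcases Nat.lt_or_gt_of_ne hij with h | h
    · exact ⟨j - i, by omega, step_of_hits hi hj h⟩
    · exact ⟨i - j, by omega, step_of_hits hj hi h⟩
  obtain ⟨hp1, δ, hδ, hdvd⟩ := Nat.find_spec hex
  refine ⟨Nat.find hex, δ, ⟨hp1, ?_⟩, hδ, hdvd⟩
  intro i hi1 hi2 e he hcon
  have := Nat.find_min' hex ⟨hi1, e, he, hcon⟩
  omega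

theorem exists_pos (D : Data n (2 * η) (2 * ρ) N σ) (hodd : n % 2 = 1) (hN3 : 3 ≤ N)
    {m : ℤ} (hm : n = 4 * η + m) (hm2 : 2 ≤ m) (hbig : 8 * (η : ℤ) + 2 * m ≤ m * m) :
    ∃ (p : ℕ) (δ : ℤ), MinStep n N σ p ∧ 1 ≤ δ ∧ δ ≤ N - 1 ∧ n ∣ (p : ℤ) * σ - δ := by
  obtain ⟨p, δ, M, hδ, hp⟩ := exists_min D hN3
  rw [abs_le] at hδ
  rcases lt_trichotomy δ 0 with h | h | h
  · exfalso
    refine neg_false (d := -δ) D hodd M (by omega) (by omega) ?_ hm hm2 hbig
    have e : (p : ℤ) * σ + -δ = p * σ - δ := by ring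
    rw [e]; exact hp
  · exfalso
    subst h
    exact zero_false D M hN3 (by simpa using hp)
  · exact ⟨p, δ, M, by omega, hδ.2, hp⟩

/-- A generator of the lattice next to the step. -/
theorem exists_gen (D : Data n (2 * η) (2 * ρ) N σ) (M : MinStep n N σ p) (hδ0 : 1 ≤ δ)
    (hδ : δ ≤ N - 1) (hp : n ∣ p * σ - δ) :
    ∃ s Y : ℤ, (p : ℤ) * Y = δ * s + n ∧ n ∣ s * σ - Y := by
  have hδabs : |δ| ≤ N - 1 := by rw [abs_le]; constructor <;> omega
  rcases Nat.lt_or_ge 1 p with hp2 | hp2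
  · obtain ⟨i, hi1, hi2, hi3⟩ := M.surj D.npos D.hN hδabs hp (m := 1) le_rfl hp2
    refine ⟨i, ((i : ℤ) * σ) % n, by rw [hi3]; push_cast; ring, Int.dvd_self_sub_emod⟩
  · have hp' : p = 1 := le_antisymm hp2 M.1
    refine ⟨0, n, by rw [hp']; push_cast; ring, ⟨-1, by ring⟩⟩

/-- A lattice vector parallel to the step is a multiple of it. -/
theorem parallel (M : MinStep n N σ p) (hδ0 : 1 ≤ δ) (hδ : δ ≤ N - 1)
    (hp : n ∣ p * σ - δ) {I K : ℤ} (h1 : n ∣ I * σ - K) (h2 : δ * I = p * K) :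
    ∃ q : ℤ, I = q * p ∧ K = q * δ := by
  have hp0 : (0 : ℤ) < p := by exact_mod_cast M.1
  have hr0 := Int.emod_nonneg I hp0.ne'
  have hr1 := Int.emod_lt_of_pos I hp0
  have hI : (p : ℤ) * (I / p) + I % p = I := Int.mul_ediv_add_emod I p
  set q := I / (p : ℤ) with hq
  set r := I % (p : ℤ) with hr
  have h3 : (p : ℤ) * (K - q * δ) = δ * r := by
    have : δ * (p * q + r) = p * K := by rw [hI]; exact h2
    linarith
  have h4 : n ∣ r * σ - (K - q * δ) := by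
    have e : r * σ - (K - q * δ) = (I * σ - K) - q * (p * σ - δ) := by
      rw [← hI]; ring
    rw [e]; exact dvd_sub h1 (Dvd.dvd.mul_left hp _)
  have hK0 : 0 ≤ K - q * δ := by
    by_contra hcon
    have k1 : (p : ℤ) * (K - q * δ) < 0 := mul_neg_of_pos_of_neg hp0 (by omega)
    have k2 : 0 ≤ δ * r := mul_nonneg (by omega) hr0
    omega
  rcases eq_or_lt_of_le hr0 with h | h
  · rw [← h, mul_zero] at h3
    have k1 : K - q * δ = 0 := by
      rcases mul_eq_zero.mp h3 with k | k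
      · omega
      · exact k
    refine ⟨q, ?_, by omega⟩
    rw [← hI, ← h]; ring
  · exfalso
    have k1 : K - q * δ < δ := by
      by_contra hcon
      have k2 : (p : ℤ) * δ ≤ p * (K - q * δ) := mul_le_mul_of_nonneg_left (by omega) hp0.le
      have k3 : δ * r < δ * p := mul_lt_mul_of_pos_left hr1 (by omega)
      nlinarith
    refine M.2 r.toNat (by omega) (by omega) (K - q * δ)
      (by rw [abs_le]; constructor <;> omega) ?_
    rw [Int.toNat_of_nonneg hr0]; exact h4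

/-- The coordinates of a lattice vector. -/
theorem coords (M : MinStep n N σ p) (hδ0 : 1 ≤ δ)
    (hδ : δ ≤ N - 1) (hp : n ∣ p * σ - δ) {s Y : ℤ} (hY : (p : ℤ) * Y = δ * s + n)
    (hs : n ∣ s * σ - Y) {I K : ℤ} (h1 : n ∣ I * σ - K) :
    ∃ a q : ℤ, δ * I - p * K = n * a ∧ I + a * s = q * p ∧ K + a * Y = q * δ := by
  have h2 : n ∣ δ * I - p * K := by
    have e : δ * I - p * K = p * (I * σ - K) - I * (p * σ - δ) := by ring
    rw [e]; exact dvd_sub (Dvd.dvd.mul_left h1 _) (Dvd.dvd.mul_left hp _)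
  obtain ⟨a, ha⟩ := h2
  obtain ⟨q, hq1, hq2⟩ := parallel M hδ0 hδ hp (I := I + a * s) (K := K + a * Y) (by
    have e : (I + a * s) * σ - (K + a * Y) = (I * σ - K) + a * (s * σ - Y) := by ring
    rw [e]; exact dvd_add h1 (Dvd.dvd.mul_left hs _)) (by
    linear_combination ha - a * hY)
  exact ⟨a, q, ha, hq1, hq2⟩

/-- Two short progressions of classes that cover everything are complementary. -/
theorem cover_classes {Y B₁ B₂ T : ℤ} (hcop : IsCoprime Y δ) (hB2 : 0 ≤ B₂) (hB : B₂ ≤ B₁)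
    (hδB : δ = B₁ + B₂ + 2)
    (H : ∀ κ : ℤ, 1 ≤ κ → κ ≤ δ → (∃ a, 0 ≤ a ∧ a ≤ B₁ ∧ δ ∣ κ + a * Y) ∨
      (∃ a, 0 ≤ a ∧ a ≤ B₂ ∧ δ ∣ (T - κ) + a * Y)) : δ ∣ T - Y := by
  have hδ0 : 0 < δ := by omega
  have hcancel : ∀ x : ℤ, δ ∣ x * Y → δ ∣ x := fun x hx => hcop.symm.dvd_of_dvd_mul_right hx
  have hrep : ∀ z : ℤ, ∃ κ : ℤ, 1 ≤ κ ∧ κ ≤ δ ∧ δ ∣ κ - z := by
    intro z
    have h1 := Int.emod_nonneg (z - 1) hδ0.ne'
    have h2 := Int.emod_lt_of_pos (z - 1) hδ0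
    have h3 : δ ∣ (z - 1) - (z - 1) % δ := Int.dvd_self_sub_emod
    refine ⟨(z - 1) % δ + 1, by omega, by omega, ?_⟩
    have e : (z - 1) % δ + 1 - z = -((z - 1) - (z - 1) % δ) := by ring
    rw [e]; exact (dvd_neg).mpr h3
  obtain ⟨κ₁, h1, h2, h3⟩ := hrep (-(B₁ + 1) * Y)
  obtain ⟨κ₂, h4, h5, h6⟩ := hrep Y
  have g1 : ∃ a, 0 ≤ a ∧ a ≤ B₂ ∧ δ ∣ T + (B₁ + 1 + a) * Y := by
    rcases H κ₁ h1 h2 with ⟨a, ha0, ha1, ha2⟩ | ⟨a, ha0, ha1, ha2⟩
    · exfalso
      have k1 : δ ∣ (B₁ + 1 - a) * Y := by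
        have e : (B₁ + 1 - a) * Y = (κ₁ - -(B₁ + 1) * Y) - (κ₁ + a * Y) := by ring
        rw [e]; exact dvd_sub h3 ha2
      have k2 := Int.le_of_dvd (by omega) (hcancel _ k1)
      omega
    · refine ⟨a, ha0, ha1, ?_⟩
      have e : T + (B₁ + 1 + a) * Y = (T - κ₁ + a * Y) + (κ₁ - -(B₁ + 1) * Y) := by ring
      rw [e]; exact dvd_add ha2 h3
  have g2 : ∃ a, 0 ≤ a ∧ a ≤ B₂ ∧ δ ∣ T + (a - 1) * Y := by
    rcases H κ₂ h4 h5 with ⟨a, ha0, ha1, ha2⟩ | ⟨a, ha0, ha1, ha2⟩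
    · exfalso
      have k1 : δ ∣ (1 + a) * Y := by
        have e : (1 + a) * Y = (κ₂ + a * Y) - (κ₂ - Y) := by ring
        rw [e]; exact dvd_sub ha2 h6
      have k2 := Int.le_of_dvd (by omega) (hcancel _ k1)
      omega
    · refine ⟨a, ha0, ha1, ?_⟩
      have e : T + (a - 1) * Y = (T - κ₂ + a * Y) + (κ₂ - Y) := by ring
      rw [e]; exact dvd_add ha2 h6
  obtain ⟨a, ha0, ha1, ha2⟩ := g1
  obtain ⟨b, hb0, hb1, hb2⟩ := g2
  have k1 : δ ∣ (B₁ + 2 + a - b) * Y := by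
    have e : (B₁ + 2 + a - b) * Y = (T + (B₁ + 1 + a) * Y) - (T + (b - 1) * Y) := by ring
    rw [e]; exact dvd_sub ha2 hb2
  have k2 := Int.le_of_dvd (by omega) (hcancel _ k1)
  have hb : b = 0 := by omega
  subst hb
  have e : T - Y = T + (0 - 1) * Y := by ring
  rw [e]; exact hb2

/-- The necessary condition for even `h = 2 η`. -/
theorem criterion (D : Data n (2 * η) (2 * ρ) N σ) (hodd : n % 2 = 1) (hη : 1 ≤ η)
    {m : ℤ} (hm : n = 4 * η + m) (hm2 : 2 ≤ m) (hbig : 8 * (η : ℤ) + 2 * m ≤ m * m) :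
    ∃ c L q t : ℤ, 1 ≤ c ∧ 1 ≤ L ∧ 1 ≤ q ∧ 0 ≤ t ∧ 2 * L + q = 4 * c + 1 ∧
      IsCoprime (L * q) m ∧ (η : ℤ) = c * m + L * q * t := by
  have hnpos := D.npos
  have hn := D.hn
  have hr := D.hr
  have hr0 := D.hr0
  push_cast at hn hr
  have hη' : (1 : ℤ) ≤ η := by exact_mod_cast hη
  have hm4 : 4 ≤ m := by
    by_contra hcon
    have : m * m ≤ 3 * m := mul_le_mul_of_nonneg_right (by omega) (by omega)
    omega
  have hN3 : 3 ≤ N := by omega
  obtain ⟨p, δ, M, hδ0, hδ, hp⟩ := exists_pos D hodd hN3 hm hm2 hbig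
  obtain ⟨C, hC⟩ := exists_C D hodd hp
  have hsum := pos_sum D hodd M hδ0 hδ hp hC hm hm2 hbig
  have hD := delta_le D hC hδ0 hδ hp
  have hCm := C_mul_m D hC hm
  have hp1 : (1 : ℤ) ≤ p := by exact_mod_cast M.1
  have hC1 : 1 ≤ C := by omega
  have hCm' : C * m ≤ η := by
    have e1 : (p : ℤ) + δ - 4 * C = 1 := by omega
    rw [e1, mul_one] at hCm; exact hCm
  have hpN : (p : ℤ) * N < n := by
    rcases Nat.lt_or_ge 1 p with hp2 | hp2
    · have := pN_le D M hδ0 hδ hp hp2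
      omega
    · have hp' : p = 1 := le_antisymm hp2 M.1
      rw [hp']; push_cast; omega
  obtain ⟨s, Y, hY, hs⟩ := exists_gen D M hδ0 hδ hp
  -- `s` is coprime to `p`
  have hsp : IsCoprime s (p : ℤ) := by
    obtain ⟨a, q, -, h2, -⟩ := coords M hδ0 hδ hp hY hs (I := 1) (K := σ)
      (by rw [one_mul, sub_self]; exact dvd_zero n)
    exact ⟨-a, q, by linarith⟩
  -- the classes of the hits
  have hhit : ∀ κ : ℤ, 1 ≤ κ → κ ≤ N → ∀ i : ℕ, i ≤ 2 * η → ((i : ℤ) * σ) % n = κ →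
      ∃ a : ℤ, 0 ≤ a ∧ n * a ≤ δ * (2 * η) - p * κ ∧ δ ∣ κ + a * Y := by
    intro κ h1 h2 i hi hκ
    have h3 : n ∣ (i : ℤ) * σ - κ := by rw [← hκ]; exact Int.dvd_self_sub_emod
    obtain ⟨a, q, g1, -, g3⟩ := coords M hδ0 hδ hp hY hs h3
    refine ⟨a, ?_, ?_, ⟨q, by rw [g3]; ring⟩⟩
    · by_contra hcon
      have k1 : n * a ≤ n * (-1) := mul_le_mul_of_nonneg_left (by omega) hnpos.le
      have k2 : (p : ℤ) * κ ≤ p * N := mul_le_mul_of_nonneg_left h2 (by omega)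
      have k3 : 0 ≤ δ * (i : ℤ) := mul_nonneg (by omega) (by positivity)
      linarith
    · rw [← g1]
      have k1 : δ * (i : ℤ) ≤ δ * (2 * η) :=
        mul_le_mul_of_nonneg_left (by exact_mod_cast hi) (by omega)
      linarith
  -- `Y` is coprime to `δ`
  have hYδ : IsCoprime Y δ := by
    rw [Int.isCoprime_iff_gcd_eq_one]
    by_contra hne
    obtain ⟨r, hr1, hr2⟩ := Nat.exists_prime_and_dvd hne
    have hrY : (r : ℤ) ∣ Y := (Int.natCast_dvd_natCast.mpr hr2).trans (Int.gcd_dvd_left ..)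
    have hrδ : (r : ℤ) ∣ δ := (Int.natCast_dvd_natCast.mpr hr2).trans (Int.gcd_dvd_right ..)
    have hr2' : (2 : ℤ) ≤ r := by exact_mod_cast hr1.two_le
    have hcl : ∀ κ : ℤ, 1 ≤ κ → κ ≤ N → ∀ i : ℕ, i ≤ 2 * η → ((i : ℤ) * σ) % n = κ →
        (r : ℤ) ∣ κ := by
      intro κ h1 h2 i hi hκ
      obtain ⟨a, -, -, h3⟩ := hhit κ h1 h2 i hi hκ
      have e : κ = (κ + a * Y) - a * Y := by ring
      rw [e]; exact dvd_sub (hrδ.trans h3) (Dvd.dvd.mul_left hrY _)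
    have h1 : (r : ℤ) ∣ N := by
      rcases D.cov 1 (by omega) (by omega) with ⟨i, hi, hi'⟩ | ⟨i, hi, hi'⟩
      · have := Int.le_of_dvd one_pos (hcl 1 (by omega) (by omega) i hi hi')
        omega
      · have := hcl (N + 1 - 1) (by omega) (by omega) i hi hi'
        rwa [add_sub_cancel_right] at this
    have h2 : (r : ℤ) ∣ 2 := by
      rcases D.cov 2 (by omega) (by omega) with ⟨i, hi, hi'⟩ | ⟨i, hi, hi'⟩
      · exact hcl 2 (by omega) (by omega) i hi hi'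
      · exfalso
        have h3 := hcl (N + 1 - 2) (by omega) (by omega) i hi hi'
        have h4 := dvd_sub h1 h3
        have e : N - (N + 1 - 2) = 1 := by ring
        rw [e] at h4
        have := Int.le_of_dvd one_pos h4
        omega
    have h3 : (r : ℤ) ∣ n := by
      have e : n = p * Y - δ * s := by linarith
      rw [e]; exact dvd_sub (Dvd.dvd.mul_left hrY _) (Dvd.dvd.mul_right hrδ _)
    have h4 := Int.le_of_dvd two_pos h2
    have h5 : (r : ℤ) = 2 := by omega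
    rw [h5] at h3
    omega
  -- `4 η < n`
  have hN1 : δ ∣ (N + 1) - Y := by
    rcases eq_or_lt_of_le hδ0 with h | hδ2
    · rw [← h]; exact one_dvd _
    · apply cover_classes (B₁ := (δ - 1) / 2) (B₂ := δ - 2 - (δ - 1) / 2) hYδ (by omega)
        (by omega) (by ring)
      have hfirst : ∀ a κ : ℤ, 1 ≤ κ → n * a ≤ δ * (2 * η) - p * κ → a ≤ (δ - 1) / 2 := by
        intro a κ hκ ha
        have k1 : 0 < (p : ℤ) * κ := mul_pos (by omega) (by omega)
        have k2 : n * (2 * a) < n * δ := by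
          have e : n * δ = 4 * η * δ + m * δ := by rw [hm]; ring
          have k3 : 0 < m * δ := mul_pos (by omega) (by omega)
          nlinarith
        have k3 : 2 * a < δ := lt_of_mul_lt_mul_left k2 hnpos.le
        omega
      have hsecond : ∀ a κ : ℤ, 1 ≤ κ → κ ≤ δ → n * a ≤ δ * (2 * η) - p * (N + 1 - κ) →
          a ≤ δ - 2 - (δ - 1) / 2 := by
        intro a κ hκ1 hκ2 ha
        have k0 := hfirst a (N + 1 - κ) (by omega) ha
        rcases Int.emod_two_eq_zero_or_one δ with hev | hov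
        · omega
        · by_contra hcon
          have k1 : 2 * a = δ - 1 := by omega
          have k2 : 2 * (n * a) = n * (δ - 1) := by rw [← k1]; ring
          have k3 : (p : ℤ) * κ ≤ p * δ := mul_le_mul_of_nonneg_left hκ2 (by omega)
          have e1 : (p : ℤ) * (N + 1) = p * (n - 2 * η - 2 * ρ) := by
            have : N + 1 = n - 2 * η - 2 * ρ := by omega
            rw [this]
          have e2 : n * (δ - 1) = n * (4 * C - p) := by
            have : δ - 1 = 4 * C - p := by omega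
            rw [this]
          have k4 : (p : ℤ) * n ≤ p * (4 * η + 2 * δ) := by nlinarith
          have k5 : n ≤ 4 * η + 2 * δ := le_of_mul_le_mul_left k4 (by omega)
          have k6 : m * m ≤ m * (2 * δ) := mul_le_mul_of_nonneg_left (by omega) (by omega)
          have k7 : m * δ ≤ m * (4 * C) := mul_le_mul_of_nonneg_left hD (by omega)
          nlinarith
      intro κ hκ1 hκ2
      rcases D.cov κ hκ1 (by omega) with ⟨i, hi, hi'⟩ | ⟨i, hi, hi'⟩
      · obtain ⟨a, ha0, ha1, ha2⟩ := hhit κ hκ1 (by omega) i hi hi'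
        exact Or.inl ⟨a, ha0, hfirst a κ hκ1 ha1, ha2⟩
      · obtain ⟨a, ha0, ha1, ha2⟩ := hhit (N + 1 - κ) (by omega) (by omega) i hi hi'
        exact Or.inr ⟨a, ha0, hsecond a κ hκ1 hκ2 ha1, ha2⟩
  -- the vector `(η, - ρ)`
  obtain ⟨a, q, g1, g2, g3⟩ := coords M hδ0 hδ hp hY hs (I := η) (K := -ρ) (by
    rw [sub_neg_eq_add]; exact dvd_half D hodd)
  have haC : a = C := by
    have h1 : n * a = n * C := by rw [← g1, mul_comm n C, hC]; ring
    exact mul_left_cancel₀ hnpos.ne' h1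
  subst haC
  have hN1' : N + 1 = n - 2 * η - 2 * ρ := by omega
  obtain ⟨z, hz⟩ := hN1
  -- `δ ∣ 2 (η - ρ)`
  have hdvd : δ ∣ 2 * (η - ρ) := by
    refine ⟨-s - Y + 4 * q - z, ?_⟩
    have hpδ : (p : ℤ) = 4 * a + 1 - δ := by omega
    rw [hpδ] at hY
    linear_combination (-1 : ℤ) * hz + hN1' + (-1 : ℤ) * hY + 4 * g3
  have hmδ : δ ∣ m - Y := by
    obtain ⟨w, hw⟩ := hdvd
    refine ⟨-s - Y + 4 * q - 2 * w, ?_⟩
    have hpδ : (p : ℤ) = 4 * a + 1 - δ := by omega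
    rw [hpδ] at hY
    linear_combination (-1 : ℤ) * hm + (-1 : ℤ) * hY + 4 * g3 - 2 * hw
  have hmp : (p : ℤ) ∣ m + s := by
    refine ⟨Y + s - 4 * q, ?_⟩
    have hpδ : δ = 4 * a + 1 - p := by omega
    have hY' : (p : ℤ) * Y = (4 * a + 1 - p) * s + n := by rw [← hpδ]; exact hY
    linear_combination (-1 : ℤ) * hm + (-1 : ℤ) * hY' - 4 * g2
  have hcopδ : IsCoprime m δ := by
    obtain ⟨w, hw⟩ := hmδ
    have e : m = Y + δ * w := by omega
    rw [e]; exact hYδ.add_mul_left_left w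
  have hcopp : IsCoprime m (p : ℤ) := by
    obtain ⟨w, hw⟩ := hmp
    have e : m = -s + p * w := by omega
    rw [e]; exact hsp.neg_left.add_mul_left_left w
  have hmain : (η : ℤ) - a * m = p * (η - ρ) := by
    have hpδ : δ = 4 * a + 1 - p := by omega
    have hC' : a * n = η * (4 * a + 1 - p) + p * ρ := by rw [← hpδ]; exact hC
    rw [hm] at hC'
    linear_combination (-1 : ℤ) * hC'
  rcases Int.emod_two_eq_zero_or_one δ with hev | hov
  · obtain ⟨L, hL⟩ : ∃ L : ℤ, δ = 2 * L := ⟨δ / 2, by omega⟩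
    obtain ⟨t, ht⟩ : L ∣ (η : ℤ) - ρ := by
      obtain ⟨w, hw⟩ := hdvd
      rw [hL] at hw
      exact ⟨w, by linarith⟩
    have ht0 : 0 ≤ t := by
      by_contra hcon
      have : L * t < 0 := mul_neg_of_pos_of_neg (by omega) (by omega)
      omega
    refine ⟨a, L, p, t, hC1, by omega, hp1, ht0, by omega, ?_, ?_⟩
    · have h1 : IsCoprime m L := by
        rw [hL] at hcopδ
        exact hcopδ.of_mul_right_right
      exact (h1.mul_right hcopp).symm
    · rw [ht] at hmain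
      linear_combination hmain
  · obtain ⟨L, hL⟩ : ∃ L : ℤ, (p : ℤ) = 2 * L := ⟨p / 2, by omega⟩
    obtain ⟨t, ht⟩ : δ ∣ (η : ℤ) - ρ := by
      have h1 : IsCoprime δ 2 := ⟨1, -(δ / 2), by omega⟩
      exact h1.dvd_of_dvd_mul_left hdvd
    have ht0 : 0 ≤ t := by
      by_contra hcon
      have : δ * t < 0 := mul_neg_of_pos_of_neg (by omega) (by omega)
      omega
    refine ⟨a, L, δ, 2 * t, hC1, by omega, hδ0, by omega, by omega, ?_, ?_⟩
    · have h1 : IsCoprime m L := by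
        rw [hL] at hcopp
        exact hcopp.of_mul_right_right
      exact (h1.mul_right hcopδ).symm
    · rw [ht, hL] at hmain
      linear_combination hmain

end Pool.Agent.Lib.MP_3a897b_coQ
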