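import Pool.Agent.Lib.MP_3a897b_coQ.Step

/-!
# A positive least step: `p + δ = 4 c + 1`
-/

namespace Pool.Agent.Lib.MP_3a897b_coQ

open Pool.Agent.Lib.MP_3a897b_co

variable {n N σ δ ρ : ℤ} {p η : ℕ}

theorem dvd_half (D : Data n (2 * η) (2 * ρ) N σ) (hodd : n % 2 = 1) : n ∣ η * σ + ρ := by
  apply dvd_of_two_mul hodd
  have := D.hσ
  push_cast at this
  have e : 2 * ((η : ℤ) * σ + ρ) = 2 * (η : ℤ) * σ + 2 * ρ := by ring
  rw [e]; exact this

theorem exists_C (D : Data n (2 * η) (2 * ρ) N σ) (hodd : n % 2 = 1) (hp : n ∣ p * σ - δ) :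
    ∃ C : ℤ, C * n = η * δ + p * ρ := by
  obtain ⟨a, ha⟩ := dvd_half D hodd
  obtain ⟨b, hb⟩ := hp
  exact ⟨p * a - η * b, by linear_combination (-(p : ℤ)) * ha + (η : ℤ) * hb⟩

/-- The window inequality for a positive step. -/
theorem window_ineq (D : Data n (2 * η) (2 * ρ) N σ) {C : ℤ} (hC : C * n = η * δ + p * ρ)
    (hδ0 : 1 ≤ δ) (hp : n ∣ p * σ - δ) {κ κ' : ℤ} (h1 : δ + 1 ≤ κ)
    (h2 : κ ≤ N + 1) (hsum : κ + κ' = N + 2 + δ) :
    δ + (exc n p σ κ (2 * ρ)).card + (exc n p σ κ' (2 * ρ)).card ≤ 4 * C := by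
  have hnpos := D.npos
  have hn := D.hn
  have hr := D.hr
  have hr0 := D.hr0
  push_cast at hn hr
  have w1 := window_pos (b := κ - δ) hnpos hr0 (by omega) D.hσ hp (by omega) (by omega) (by omega)
  have w2 := window_pos (b := κ' - δ) hnpos hr0 (by omega) D.hσ hp (by omega) (by omega)
    (by omega)
  have w3 := D.window (b := κ - δ) (d := δ) (by omega) (by omega) (by omega)
  have e1 : N + 2 - (κ - δ) - δ = κ' - δ := by omega
  rw [e1] at w3
  have e2 : κ - δ + δ = κ := by ring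
  have e3 : κ' - δ + δ = κ' := by ring
  rw [e2] at w1
  rw [e3] at w2
  push_cast at w1 w2
  have h3 : n * ((hits n (2 * η) σ (κ - δ) δ).card : ℤ) =
      n * (2 * C - (exc n p σ κ (2 * ρ)).card) := by
    rw [w1]; linear_combination (-2 : ℤ) * hC
  have h4 : n * ((hits n (2 * η) σ (κ' - δ) δ).card : ℤ) =
      n * (2 * C - (exc n p σ κ' (2 * ρ)).card) := by
    rw [w2]; linear_combination (-2 : ℤ) * hC
  have h5 := mul_left_cancel₀ hnpos.ne' h3
  have h6 := mul_left_cancel₀ hnpos.ne' h4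
  omega

/-- A lower bound for the number of exceptional indices. -/
theorem le_exc (D : Data n (2 * η) (2 * ρ) N σ) (M : MinStep n N σ p) (hδ0 : 1 ≤ δ)
    (hδ : δ ≤ N - 1) (hp : n ∣ p * σ - δ) {κ : ℤ} (hκ1 : 1 ≤ κ) (hκ2 : κ ≤ N + 1) {e : ℕ}
    (he : e < p) (hlt : n * e + δ * (p - 1) < p * (κ + 2 * ρ)) :
    e ≤ (exc n p σ κ (2 * ρ)).card := by
  classical
  have hnpos := D.npos
  have hn := D.hn
  have hr := D.hr
  have hr0 := D.hr0
  push_cast at hn hr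
  have hδabs : |δ| ≤ N - 1 := by rw [abs_le]; constructor <;> omega
  have hex : ∀ m : ℕ, m ∈ Finset.Icc 1 e → ∃ i : ℕ, 1 ≤ i ∧ i < p ∧
      (p : ℤ) * (((i : ℤ) * σ) % n) = δ * i + n * m := by
    intro m hm
    rw [Finset.mem_Icc] at hm
    exact M.surj hnpos D.hN hδabs hp hm.1 (by omega)
  choose! F hF1 hF2 hF3 using hex
  have hp0 : (0 : ℤ) < p := by exact_mod_cast M.1
  have hinj : Set.InjOn F (Finset.Icc 1 e : Finset ℕ) := by
    intro m hm m' hm' hmm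
    have h1 := hF3 m hm
    have h2 := hF3 m' hm'
    rw [← hmm, h1] at h2
    have h3 : n * (m : ℤ) = n * m' := by linarith
    exact_mod_cast mul_left_cancel₀ hnpos.ne' h3
  have hsub : (Finset.Icc 1 e).image F ⊆ exc n p σ κ (2 * ρ) := by
    intro i hi
    rw [Finset.mem_image] at hi
    obtain ⟨m, hm, rfl⟩ := hi
    have h1 := hF1 m hm
    have h2 := hF2 m hm
    have h3 := hF3 m hm
    rw [Finset.mem_Icc] at hm
    rw [exc, Finset.mem_filter, Finset.mem_range]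
    refine ⟨h2, ?_⟩
    have h4 := M.range_pos hnpos hδ0 hδ hp h1 h2
    have h5 := (M.range hnpos h1 h2).2
    have h6 : n ∣ ((F m : ℕ) : ℤ) * σ - (((F m : ℕ) : ℤ) * σ) % n := Int.dvd_self_sub_emod
    have h7 : (((F m : ℕ) : ℤ) * σ) % n < κ + 2 * ρ := by
      apply lt_of_mul_lt_mul_left _ hp0.le
      rw [h3]
      have h8 : δ * ((F m : ℕ) : ℤ) ≤ δ * (p - 1) :=
        mul_le_mul_of_nonneg_left (by omega) (by omega)
      have h9 : n * (m : ℤ) ≤ n * e :=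
        mul_le_mul_of_nonneg_left (by exact_mod_cast hm.2) hnpos.le
      linarith
    have h8 : (((F m : ℕ) : ℤ) * σ - κ) % n = (((F m : ℕ) : ℤ) * σ) % n - κ := by
      apply emod_unique
      · omega
      · omega
      · have e1 : ((F m : ℕ) : ℤ) * σ - κ - ((((F m : ℕ) : ℤ) * σ) % n - κ) =
            ((F m : ℕ) : ℤ) * σ - (((F m : ℕ) : ℤ) * σ) % n := by ring
        rw [e1]; exact h6
    rw [h8]; omega
  have h1 := Finset.card_le_card hsub
  rw [Finset.card_image_of_injOn hinj, Nat.card_Icc] at h1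
  omega

/-- Consequences of a positive least step of index at least two: `p N ≤ n - δ`. -/
theorem pN_le (D : Data n (2 * η) (2 * ρ) N σ) (M : MinStep n N σ p) (hδ0 : 1 ≤ δ)
    (hδ : δ ≤ N - 1) (hp : n ∣ p * σ - δ) (hp2 : 2 ≤ p) : (p : ℤ) * N ≤ n - δ := by
  have hnpos := D.npos
  have hδabs : |δ| ≤ N - 1 := by rw [abs_le]; constructor <;> omega
  obtain ⟨i, hi1, hi2, hi3⟩ := M.surj hnpos D.hN hδabs hp (m := p - 1) (by omega) (by omega)
  obtain ⟨-, h2⟩ := M.range hnpos hi1 hi2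
  have hp0 : (0 : ℤ) ≤ p := by positivity
  have h3 : (p : ℤ) * (((i : ℤ) * σ) % n) ≤ p * (n - N) := mul_le_mul_of_nonneg_left h2 hp0
  rw [hi3, Nat.cast_sub (by omega)] at h3
  have h4 : δ * 1 ≤ δ * i := mul_le_mul_of_nonneg_left (by exact_mod_cast hi1) (by omega)
  push_cast at h3
  nlinarith

/-- `m = n - 4 η` is larger than `2 (p - 1)`. -/
theorem two_p_lt (D : Data n (2 * η) (2 * ρ) N σ) {e : ℤ} (he : 1 ≤ e)
    (hpN : (p : ℤ) * N ≤ n - e) {m : ℤ} (hm : n = 4 * η + m)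
    (hm2 : 2 ≤ m) (hbig : 8 * (η : ℤ) + 2 * m ≤ m * m) : 2 * (p : ℤ) + 2 ≤ m + 3 := by
  have hn := D.hn
  have hr := D.hr
  push_cast at hn hr
  have hN : m - 1 ≤ N := by omega
  have hp0 : (0 : ℤ) ≤ p := by positivity
  by_contra hcon
  have h1 : m + 2 ≤ 2 * (p : ℤ) := by omega
  have h2 : (p : ℤ) * (m - 1) ≤ p * N := mul_le_mul_of_nonneg_left hN hp0
  have h3 : (m + 2) * (m - 1) ≤ 2 * (p : ℤ) * (m - 1) :=
    mul_le_mul_of_nonneg_right h1 (by omega)
  nlinarith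

end Pool.Agent.Lib.MP_3a897b_coQ
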