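import Pool.Agent.Lib.MP_3a897b_coQ.Pos

/-!
# A positive least step satisfies `p + δ = 4 C + 1`
-/

namespace Pool.Agent.Lib.MP_3a897b_coQ

open Pool.Agent.Lib.MP_3a897b_co

variable {n N σ δ ρ : ℤ} {p η : ℕ}

theorem delta_le (D : Data n (2 * η) (2 * ρ) N σ) {C : ℤ} (hC : C * n = η * δ + p * ρ)
    (hδ0 : 1 ≤ δ) (hδ : δ ≤ N - 1) (hp : n ∣ p * σ - δ) : δ ≤ 4 * C := by
  have h1 := window_ineq D hC hδ0 hp (κ := δ + 1) (κ' := N + 1) le_rfl (by omega) (by ring)
  omega

theorem C_mul_m (D : Data n (2 * η) (2 * ρ) N σ) {C : ℤ} (hC : C * n = η * δ + p * ρ)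
    {m : ℤ} (hm : n = 4 * η + m) : C * m ≤ η * (p + δ - 4 * C) := by
  have hr := D.hr
  push_cast at hr
  have h1 : (p : ℤ) * ρ ≤ p * η := mul_le_mul_of_nonneg_left (by omega) (by positivity)
  rw [hm] at hC
  nlinarith

/-- No even least step for an even value `δ`. -/
theorem not_both_even (hodd : n % 2 = 1) (M : MinStep n N σ p) (hδ0 : 1 ≤ δ)
    (hδ : δ ≤ N - 1) (hp : n ∣ p * σ - δ) (h1 : p % 2 = 0) (h2 : δ % 2 = 0) : False := by
  obtain ⟨q, rfl⟩ : ∃ q, p = 2 * q := ⟨p / 2, by omega⟩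
  obtain ⟨d, rfl⟩ : ∃ d, δ = 2 * d := ⟨δ / 2, by omega⟩
  have hp1 := M.1
  refine M.2 q (by omega) (by omega) d (by rw [abs_le]; constructor <;> omega) ?_
  apply dvd_of_two_mul hodd
  have e : 2 * ((q : ℤ) * σ - d) = ((2 * q : ℕ) : ℤ) * σ - 2 * d := by push_cast; ring
  rw [e]; exact hp

/-- The inequality behind the case of an even value `δ`. -/
theorem main_ineq {η m p e δ C : ℤ} (hη : 0 ≤ η) (he : 1 ≤ e) (hp : 2 ≤ p)
    (hm : 2 * p - 1 ≤ m) (hbig : 8 * η + 2 * m ≤ m * m) (hC : C * m ≤ η * (e + 2))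
    (hδ : p + δ = 4 * C + 2 + e) (hD : δ ≤ 4 * C) :
    2 * (δ * (p - 1)) < p * m + e * (4 * η + m) - 2 * p := by
  have hm0 : 0 < m := by omega
  apply lt_of_mul_lt_mul_left _ hm0.le
  have a1 : m * δ ≤ 4 * (η * (e + 2)) - (p - 2 - e) * m := by
    have h1 : δ = 4 * C + 2 + e - p := by omega
    rw [h1]
    linarith
  have a2 : m * δ * (p - 1) ≤ (4 * (η * (e + 2)) - (p - 2 - e) * m) * (p - 1) :=
    mul_le_mul_of_nonneg_right a1 (by omega)
  have a3 : 2 * ((4 * (η * (e + 2)) - (p - 2 - e) * m) * (p - 1)) <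
      m * (p * m + e * (4 * η + m) - 2 * p) := by
    rcases le_or_gt 0 (e * m - 2 * (p - 1) * (e + 2)) with hX | hX
    · have b1 : 0 ≤ η * (e * m - 2 * (p - 1) * (e + 2)) := mul_nonneg hη hX
      have b2 : 0 ≤ p * m * (m - 2) := mul_nonneg (mul_nonneg (by omega) hm0.le) (by omega)
      have b3 : 0 < e * (m * m) := mul_pos (by omega) (mul_pos hm0 hm0)
      have b4 : 0 ≤ (p - 1) * (p - 2 - e) * m :=
        mul_nonneg (mul_nonneg (by omega) (by omega)) hm0.le
      linarith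
    · have b1 : 0 ≤ (m * m - 2 * m - 8 * η) * (-(e * m - 2 * (p - 1) * (e + 2))) :=
        mul_nonneg (by omega) (by omega)
      have b2 : 0 < e * (m * (m - 2 * (p - 1))) + 2 * ((p - 2) * (2 - (m - 2 * (p - 1)))) := by
        have c1 : 1 * (m * (m - 2 * (p - 1))) ≤ e * (m * (m - 2 * (p - 1))) :=
          mul_le_mul_of_nonneg_right he (mul_nonneg hm0.le (by omega))
        have c2 : 0 ≤ (p - 2) * (m - 2 * (p - 1)) := mul_nonneg (by omega) (by omega)
        have c3 : 0 < m - 2 * (p - 1) := by omega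
        have c4 : 0 < (m - 2 * (p - 2)) * (m - 2 * (p - 1)) := mul_pos (by omega) c3
        nlinarith
      have b3 := mul_pos hm0 b2
      linarith
  linarith

theorem pos_sum (D : Data n (2 * η) (2 * ρ) N σ) (hodd : n % 2 = 1) (M : MinStep n N σ p)
    (hδ0 : 1 ≤ δ) (hδ : δ ≤ N - 1) (hp : n ∣ p * σ - δ) {C : ℤ} (hC : C * n = η * δ + p * ρ)
    {m : ℤ} (hm : n = 4 * η + m) (hm2 : 2 ≤ m) (hbig : 8 * (η : ℤ) + 2 * m ≤ m * m) :
    (p : ℤ) + δ = 4 * C + 1 := by
  have hnpos := D.npos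
  have hn := D.hn
  have hr := D.hr
  have hr0 := D.hr0
  push_cast at hn hr
  have hD := delta_le D hC hδ0 hδ hp
  have hCm := C_mul_m D hC hm
  have hC1 : 1 ≤ C := by omega
  have hp1 : (1 : ℤ) ≤ p := by exact_mod_cast M.1
  have hη0 : 0 < (η : ℤ) := by
    rcases Nat.eq_zero_or_pos η with h0 | h0
    · exfalso
      rw [h0] at hCm
      push_cast at hCm
      have : 1 * 2 ≤ C * m := mul_le_mul hC1 hm2 (by omega) (by omega)
      omega
    · exact_mod_cast h0
  -- lower bound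
  have hlow : 4 * C + 1 ≤ (p : ℤ) + δ := by
    by_contra hcon
    have h1 : (η : ℤ) * (p + δ - 4 * C) ≤ 0 :=
      mul_nonpos_of_nonneg_of_nonpos hη0.le (by omega)
    have h2 : 1 * 2 ≤ C * m := mul_le_mul hC1 hm2 (by omega) (by omega)
    omega
  by_contra hne
  obtain ⟨e, he0, he⟩ : ∃ e : ℤ, 0 ≤ e ∧ (p : ℤ) + δ = 4 * C + 2 + e :=
    ⟨p + δ - 4 * C - 2, by omega, by ring⟩
  have hp2 : 2 ≤ p := by
    by_contra hcon
    have : (p : ℤ) = 1 := by omega
    omega
  have hpN := pN_le D M hδ0 hδ hp hp2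
  have h2p := two_p_lt D hδ0 hpN hm hm2 hbig
  have hCm' : C * m ≤ η * (e + 2) := by
    have e1 : (p : ℤ) + δ - 4 * C = e + 2 := by omega
    rw [e1] at hCm; exact hCm
  rcases Int.emod_two_eq_zero_or_one δ with hev | hov
  · -- `δ` even
    have hpodd : p % 2 = 1 := by
      rcases Nat.mod_two_eq_zero_or_one p with h | h
      · exact (not_both_even hodd M hδ0 hδ hp h hev).elim
      · exact h
    have he1 : 1 ≤ e := by omega
    obtain ⟨A, hA⟩ : ∃ A : ℕ, 4 * C - δ = 2 * (A : ℤ) := by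
      refine ⟨((4 * C - δ) / 2).toNat, ?_⟩
      rw [Int.toNat_of_nonneg (by omega)]; omega
    have hA' : 2 * (A : ℤ) + 2 = p - e := by omega
    -- the main inequality
    have key : 2 * (δ * ((p : ℤ) - 1)) < p * m + e * n - 2 * p := by
      rw [hm]
      exact main_ineq hη0.le he1 (by omega) (by omega) hbig hCm' (by omega) hD
    have g1 : A + 1 ≤ (exc n p σ N (2 * ρ)).card := by
      apply le_exc D M hδ0 hδ hp D.hN (by omega) (by omega)
      push_cast
      have e1 : N + 2 * ρ = n - 2 * η - 1 := by omega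
      rw [e1]
      have e2 : 2 * (n * ((A : ℤ) + 1)) = n * (p - e) := by rw [← hA']; ring
      have e3 : (p : ℤ) * n = p * (4 * η) + p * m := by rw [hm]; ring
      nlinarith
    have g2 : A ≤ (exc n p σ (δ + 2) (2 * ρ)).card := by
      apply le_exc D M hδ0 hδ hp (by omega) (by omega) (by omega)
      have e2 : 2 * (n * (A : ℤ)) = n * (4 * C - δ) := by rw [hA]; ring
      have e3 : δ * n = δ * (4 * η) + δ * m := by rw [hm]; ring
      have e4 : 0 ≤ δ * m := mul_nonneg (by omega) (by omega)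
      nlinarith
    have g3 := window_ineq D hC hδ0 hp (κ := N) (κ' := δ + 2) (by omega) (by omega) (by ring)
    omega
  · -- `δ` odd
    obtain ⟨A, hA⟩ : ∃ A : ℕ, 4 * C - δ = 2 * (A : ℤ) + 1 := by
      refine ⟨((4 * C - δ) / 2).toNat, ?_⟩
      rw [Int.toNat_of_nonneg (by omega)]; omega
    have key : ∀ κ : ℤ, N + 1 + δ ≤ 2 * κ → κ ≤ N + 1 →
        A + 1 ≤ (exc n p σ κ (2 * ρ)).card := by
      intro κ h1 h2
      apply le_exc D M hδ0 hδ hp (by omega) h2 (by omega)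
      push_cast
      have k1 : (p : ℤ) * (N + 1 + δ + 4 * ρ) ≤ p * (2 * κ + 4 * ρ) :=
        mul_le_mul_of_nonneg_left (by omega) (by omega)
      have e1 : N + 1 + δ + 4 * ρ = n - 2 * η + 2 * ρ + δ := by omega
      rw [e1] at k1
      have e2 : 2 * (n * ((A : ℤ) + 1)) = n * (4 * C - δ + 1) := by
        have : 4 * C - δ + 1 = 2 * ((A : ℤ) + 1) := by omega
        rw [this]; ring
      have e3 : (p : ℤ) * n = p * (4 * η) + p * m := by rw [hm]; ring
      have e4 : δ * n = δ * (4 * η) + δ * m := by rw [hm]; ring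
      have k2 : δ * (2 * ((p : ℤ) - 1)) ≤ δ * m := mul_le_mul_of_nonneg_left (by omega) (by omega)
      have k3 : 0 < (p : ℤ) * m := mul_pos (by omega) (by omega)
      have k4 : 0 ≤ e * n := mul_nonneg he0 hnpos.le
      have e5 : n * (4 * C) = n * (p + δ - 2 - e) := by
        have : 4 * C = p + δ - 2 - e := by omega
        rw [this]
      nlinarith
    have g1 := key ((N + 2 + δ) / 2) (by omega) (by omega)
    have g2 := key (N + 2 + δ - (N + 2 + δ) / 2) (by omega) (by omega)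
    have g3 := window_ineq D hC hδ0 hp (κ := (N + 2 + δ) / 2)
      (κ' := N + 2 + δ - (N + 2 + δ) / 2) (by omega) (by omega) (by ring)
    omega

end Pool.Agent.Lib.MP_3a897b_coQ
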