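import Pool.Agent.Lib.MP_3a897b_co.Core

/-!
# The least step

`p` is the least positive index such that `p σ` is within `N - 1` of a multiple of `n`.  The
residues `i σ mod n`, `1 ≤ i < p`, lie in `[N, n - N]` and are enumerated by the lines of the lattice.
-/

namespace Pool.Agent.Lib.MP_3a897b_coQ

open Pool.Agent.Lib.MP_3a897b_co

/-- The least step. -/
def MinStep (n N σ : ℤ) (p : ℕ) : Prop :=
  1 ≤ p ∧ ∀ i : ℕ, 1 ≤ i → i < p → ∀ e : ℤ, |e| ≤ N - 1 → ¬ n ∣ (i : ℤ) * σ - e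

variable {n N σ δ : ℤ} {p : ℕ}

theorem MinStep.range (M : MinStep n N σ p) (hn : 0 < n) {i : ℕ} (h1 : 1 ≤ i) (h2 : i < p) :
    N ≤ ((i : ℤ) * σ) % n ∧ ((i : ℤ) * σ) % n ≤ n - N := by
  have h0 := Int.emod_nonneg ((i : ℤ) * σ) hn.ne'
  have h3 := Int.emod_lt_of_pos ((i : ℤ) * σ) hn
  have h4 : n ∣ (i : ℤ) * σ - ((i : ℤ) * σ) % n := Int.dvd_self_sub_emod
  constructor
  · by_contra hcon
    exact M.2 i h1 h2 _ (by rw [abs_le]; constructor <;> omega) h4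
  · by_contra hcon
    refine M.2 i h1 h2 (((i : ℤ) * σ) % n - n) (by rw [abs_le]; constructor <;> omega) ?_
    have e : (i : ℤ) * σ - (((i : ℤ) * σ) % n - n) =
        ((i : ℤ) * σ - ((i : ℤ) * σ) % n) + n := by ring
    rw [e]; exact dvd_add h4 dvd_rfl

/-- The line of the index `i`. -/
theorem MinStep.line (M : MinStep n N σ p) (hn : 0 < n) (hN : 1 ≤ N) (hδ : |δ| ≤ N - 1)
    (hp : n ∣ p * σ - δ) {i : ℕ} (h1 : 1 ≤ i) (h2 : i < p) :
    ∃ m : ℕ, 1 ≤ m ∧ m < p ∧ (p : ℤ) * (((i : ℤ) * σ) % n) = δ * i + n * m := by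
  obtain ⟨hlo, hhi⟩ := M.range hn h1 h2
  have h4 : n ∣ (i : ℤ) * σ - ((i : ℤ) * σ) % n := Int.dvd_self_sub_emod
  have h5 : n ∣ (p : ℤ) * (((i : ℤ) * σ) % n) - δ * i := by
    have e : (p : ℤ) * (((i : ℤ) * σ) % n) - δ * i =
        (i : ℤ) * (p * σ - δ) - p * ((i : ℤ) * σ - ((i : ℤ) * σ) % n) := by ring
    rw [e]
    exact dvd_sub (Dvd.dvd.mul_left hp _) (Dvd.dvd.mul_left h4 _)
  obtain ⟨m, hm⟩ := h5
  have hi1 : (1 : ℤ) ≤ i := by exact_mod_cast h1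
  have hip : (i : ℤ) + 1 ≤ p := by exact_mod_cast h2
  rw [abs_le] at hδ
  have hA : δ * i ≤ (N - 1) * (p - 1) := by
    have := mul_le_mul (show (N - 1 : ℤ) ≤ N - 1 from le_rfl) (show (i : ℤ) ≤ p - 1 by omega)
      (by omega) (by omega)
    have h6 : δ * i ≤ (N - 1) * i := mul_le_mul_of_nonneg_right hδ.2 (by omega)
    linarith
  have hB : -((N - 1) * (p - 1)) ≤ δ * i := by
    have := mul_le_mul (show (N - 1 : ℤ) ≤ N - 1 from le_rfl) (show (i : ℤ) ≤ p - 1 by omega)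
      (by omega) (by omega)
    have h6 : -(N - 1) * i ≤ δ * i := mul_le_mul_of_nonneg_right hδ.1 (by omega)
    linarith
  have hC : (p : ℤ) * N ≤ p * (((i : ℤ) * σ) % n) :=
    mul_le_mul_of_nonneg_left hlo (by omega)
  have hD : (p : ℤ) * (((i : ℤ) * σ) % n) ≤ p * (n - N) :=
    mul_le_mul_of_nonneg_left hhi (by omega)
  have hm0 : 0 < n * m := by nlinarith
  have hm1 : n * m < n * p := by nlinarith
  have hm2 : 0 < m := by
    by_contra hcon
    have : n * m ≤ 0 := mul_nonpos_of_nonneg_of_nonpos hn.le (by omega)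
    omega
  have hm3 : m < p := lt_of_mul_lt_mul_left hm1 hn.le
  refine ⟨m.toNat, by omega, by omega, ?_⟩
  rw [Int.toNat_of_nonneg hm2.le]
  linarith

/-- Different indices have different lines. -/
theorem MinStep.line_inj (M : MinStep n N σ p) (hN : 1 ≤ N) (hδ : |δ| ≤ N - 1)
    {i j : ℕ} (hi1 : 1 ≤ i) (hj2 : j < p) {m : ℤ}
    (hi : (p : ℤ) * (((i : ℤ) * σ) % n) = δ * i + n * m)
    (hj : (p : ℤ) * (((j : ℤ) * σ) % n) = δ * j + n * m) : ¬ i < j := by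
  intro hij
  have h4 : n ∣ (i : ℤ) * σ - ((i : ℤ) * σ) % n := Int.dvd_self_sub_emod
  have h5 : n ∣ (j : ℤ) * σ - ((j : ℤ) * σ) % n := Int.dvd_self_sub_emod
  have hp0 : (0 : ℤ) < p := by exact_mod_cast M.1
  have hsub : ((j - i : ℕ) : ℤ) = j - i := by push_cast [Nat.cast_sub hij.le]; ring
  have h6 : (p : ℤ) * (((j : ℤ) * σ) % n - ((i : ℤ) * σ) % n) = δ * (j - i) := by linarith
  refine M.2 (j - i) (by omega) (by omega) (((j : ℤ) * σ) % n - ((i : ℤ) * σ) % n) ?_ ?_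
  · have h7 : |(p : ℤ) * (((j : ℤ) * σ) % n - ((i : ℤ) * σ) % n)| ≤ (N - 1) * p := by
      rw [h6, abs_mul]
      have h8 : |(j : ℤ) - i| ≤ p := by
        rw [abs_le]; constructor <;> omega
      exact mul_le_mul hδ h8 (abs_nonneg _) (by omega)
    rw [abs_mul, abs_of_pos hp0, mul_comm (N - 1)] at h7
    exact le_of_mul_le_mul_left h7 hp0
  · rw [hsub]
    have e : ((j : ℤ) - i) * σ - (((j : ℤ) * σ) % n - ((i : ℤ) * σ) % n) =
        ((j : ℤ) * σ - ((j : ℤ) * σ) % n) - ((i : ℤ) * σ - ((i : ℤ) * σ) % n) := by ring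
    rw [e]; exact dvd_sub h5 h4

/-- Every line `1 ≤ m < p` is used. -/
theorem MinStep.surj (M : MinStep n N σ p) (hn : 0 < n) (hN : 1 ≤ N) (hδ : |δ| ≤ N - 1)
    (hp : n ∣ p * σ - δ) {m : ℕ} (hm1 : 1 ≤ m) (hm2 : m < p) :
    ∃ i : ℕ, 1 ≤ i ∧ i < p ∧ (p : ℤ) * (((i : ℤ) * σ) % n) = δ * i + n * m := by
  classical
  have hex : ∀ i : ℕ, i ∈ Finset.Ico 1 p → ∃ m : ℕ, 1 ≤ m ∧ m < p ∧
      (p : ℤ) * (((i : ℤ) * σ) % n) = δ * i + n * m := by
    intro i hi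
    rw [Finset.mem_Ico] at hi
    exact M.line hn hN hδ hp hi.1 hi.2
  choose! F hF1 hF2 hF3 using hex
  have hinj : Set.InjOn F (Finset.Ico 1 p : Finset ℕ) := by
    intro i hi j hj hij
    have hi' := hF3 i hi
    have hj' := hF3 j hj
    rw [Finset.mem_coe, Finset.mem_Ico] at hi hj
    rw [← hij] at hj'
    rcases Nat.lt_trichotomy i j with h | h | h
    · exact absurd h (M.line_inj hN hδ hi.1 hj.2 hi' hj')
    · exact h
    · exact absurd h (M.line_inj hN hδ hj.1 hi.2 hj' hi')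
  have hsub : (Finset.Ico 1 p).image F ⊆ Finset.Ico 1 p := by
    intro m hm
    rw [Finset.mem_image] at hm
    obtain ⟨i, hi, rfl⟩ := hm
    rw [Finset.mem_Ico]
    exact ⟨hF1 i hi, hF2 i hi⟩
  have heq : (Finset.Ico 1 p).image F = Finset.Ico 1 p := by
    apply Finset.eq_of_subset_of_card_le hsub
    rw [Finset.card_image_of_injOn hinj]
  have hmem : m ∈ (Finset.Ico 1 p).image F := by
    rw [heq, Finset.mem_Ico]; exact ⟨hm1, hm2⟩
  rw [Finset.mem_image] at hmem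
  obtain ⟨i, hi, rfl⟩ := hmem
  have h3 := hF3 i hi
  rw [Finset.mem_Ico] at hi
  exact ⟨i, hi.1, hi.2, h3⟩

/-- For a positive step the residues are at least `N + δ`. -/
theorem MinStep.range_pos (M : MinStep n N σ p) (hn : 0 < n) (hδ0 : 1 ≤ δ) (hδ : δ ≤ N - 1)
    (hp : n ∣ p * σ - δ) {i : ℕ} (h1 : 1 ≤ i) (h2 : i < p) :
    N + δ ≤ ((i : ℤ) * σ) % n := by
  obtain ⟨hlo, hhi⟩ := M.range hn h1 h2
  obtain ⟨hlo', hhi'⟩ := M.range hn (i := p - i) (by omega) (by omega)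
  have h4 : n ∣ (i : ℤ) * σ - ((i : ℤ) * σ) % n := Int.dvd_self_sub_emod
  have h5 : n ∣ ((p - i : ℕ) : ℤ) * σ - (((p - i : ℕ) : ℤ) * σ) % n := Int.dvd_self_sub_emod
  set y := ((i : ℤ) * σ) % n with hy
  set z := (((p - i : ℕ) : ℤ) * σ) % n with hz
  have h6 : n ∣ y + z - δ := by
    have e : y + z - δ = ((p : ℤ) * σ - δ) - ((i : ℤ) * σ - y) -
        (((p - i : ℕ) : ℤ) * σ - z) := by
      rw [Nat.cast_sub h2.le]; ring
    rw [e]; exact dvd_sub (dvd_sub hp h4) h5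
  obtain ⟨q, hq⟩ := h6
  have hq1 : q = 1 := by
    have h7 : 0 < n * q := by omega
    have h8 : n * q < n * 2 := by omega
    have h9 : q < 2 := lt_of_mul_lt_mul_left h8 hn.le
    have h10 : 0 < q := by
      by_contra hcon
      have : n * q ≤ 0 := mul_nonpos_of_nonneg_of_nonpos hn.le (by omega)
      omega
    omega
  rw [hq1] at hq
  omega

end Pool.Agent.Lib.MP_3a897b_coQ
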