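import Pool.Agent.Lib.MP_3a897b_co.Construct

/-!
# The sufficient condition
-/

namespace Pool.Agent.Lib.MP_3a897b_coQ

open Pool.Agent.Lib.MP_3a897b_co

/-- The multiplier. -/
theorem exists_sigma {n k m c L q t : ℤ} (hodd : n % 2 = 1) (hn : n = 4 * k + m)
    (hsum : 2 * L + q = 4 * c + 1) (hcop : IsCoprime q m) (hk : k = c * m + L * q * t) :
    ∃ σ : ℤ, σ % 2 = 1 ∧ n ∣ q * σ - 2 * L ∧ n ∣ m * σ + (m + 4 * L * t) := by
  obtain ⟨α, β, hαβ⟩ := hcop
  have hq : q = 4 * c + 1 - 2 * L := by omega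
  have h1 : n ∣ q * (2 * L * α - β * (m + 4 * L * t)) - 2 * L := by
    refine ⟨-β, ?_⟩
    rw [hn, hk]
    linear_combination (2 * L) * hαβ - (β * m) * hsum
  have h2 : n ∣ m * (2 * L * α - β * (m + 4 * L * t)) + (m + 4 * L * t) := by
    refine ⟨α, ?_⟩
    rw [hn, hk]
    linear_combination (-(m + 4 * L * t)) * hαβ + (α * m) * hsum
  rcases Int.emod_two_eq_zero_or_one (2 * L * α - β * (m + 4 * L * t)) with h | h
  · refine ⟨2 * L * α - β * (m + 4 * L * t) + n, by omega, ?_, ?_⟩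
    · have e : q * (2 * L * α - β * (m + 4 * L * t) + n) - 2 * L =
          (q * (2 * L * α - β * (m + 4 * L * t)) - 2 * L) + q * n := by ring
      rw [e]; exact dvd_add h1 (Dvd.intro_left _ rfl)
    · have e : m * (2 * L * α - β * (m + 4 * L * t) + n) + (m + 4 * L * t) =
          (m * (2 * L * α - β * (m + 4 * L * t)) + (m + 4 * L * t)) + m * n := by ring
      rw [e]; exact dvd_add h2 (Dvd.intro_left _ rfl)
  · exact ⟨_, h, h1, h2⟩

/-- One line of hits. -/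
theorem hit_of_class {n k m c L q t σ κ a : ℤ} (hn : n = 4 * k + m)
    (hL : 1 ≤ L) (hq : 1 ≤ q) (ht : 0 ≤ t) (hm : 1 ≤ m) (hsum : 2 * L + q = 4 * c + 1)
    (hk : k = c * m + L * q * t) (h1 : n ∣ q * σ - 2 * L) (h2 : n ∣ m * σ + (m + 4 * L * t))
    (hκ1 : 1 ≤ κ) (hκ2 : κ ≤ m + 2 * L * t - 1) (ha0 : 0 ≤ a) (ha1 : a ≤ L - 1)
    (ha : 2 * L ∣ κ + a * (m + 4 * L * t)) : ∃ i : ℤ, 0 ≤ i ∧ i ≤ 2 * k ∧ n ∣ i * σ - κ := by
  obtain ⟨b, hb⟩ := ha
  have hLt : 0 ≤ L * t := mul_nonneg (by omega) ht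
  have hb0 : 0 ≤ b := by
    by_contra hcon
    have k1 : 2 * L * b < 0 := mul_neg_of_pos_of_neg (by omega) (by omega)
    have k2 : 0 ≤ a * (m + 4 * L * t) := mul_nonneg ha0 (by linarith)
    omega
  refine ⟨a * m + b * q, ?_, ?_, ?_⟩
  · have k1 : 0 ≤ a * m := mul_nonneg ha0 (by omega)
    have k2 : 0 ≤ b * q := mul_nonneg hb0 (by omega)
    omega
  · have e1 : 2 * L * (a * m + b * q) = a * n + q * κ := by
      rw [hn, hk]
      linear_combination (-q) * hb + (a * m) * hsum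
    have k0 : 0 < n := by
      have k1 : 0 ≤ L * q * t := mul_nonneg (mul_nonneg (by omega) (by omega)) ht
      have k2 : 0 ≤ c * m := mul_nonneg (by omega) (by omega)
      omega
    have k1 : a * n ≤ (L - 1) * n := mul_le_mul_of_nonneg_right ha1 k0.le
    have k2 : q * κ ≤ q * (m + 2 * L * t - 1) := mul_le_mul_of_nonneg_left hκ2 (by omega)
    have k3 : (L - 1) * n + q * (m + 2 * L * t - 1) ≤ 2 * L * (2 * k) := by
      have k4 : 0 ≤ L * m := mul_nonneg (by omega) (by omega)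
      have k5 : 0 ≤ L * q * t := mul_nonneg (mul_nonneg (by omega) (by omega)) ht
      have hq' : q = 4 * c + 1 - 2 * L := by omega
      have e2 : (L - 1) * n + q * (m + 2 * L * t - 1) - 2 * L * (2 * k) =
          -(L * m) - q - 2 * (L * q * t) := by
        rw [hn]
        linear_combination (-4 : ℤ) * hk + m * hsum
      omega
    have k6 : 2 * L * (a * m + b * q) ≤ 2 * L * (2 * k) := by omega
    exact le_of_mul_le_mul_left k6 (by omega)
  · have e : (a * m + b * q) * σ - κ = a * (m * σ + (m + 4 * L * t)) + b * (q * σ - 2 * L) := by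
      linear_combination (-1 : ℤ) * hb
    rw [e]
    exact dvd_add (Dvd.dvd.mul_left h2 _) (Dvd.dvd.mul_left h1 _)

theorem hit_all {n k m c L q t σ κ : ℤ} (hodd : n % 2 = 1) (hn : n = 4 * k + m)
    (hL : 1 ≤ L) (hq : 1 ≤ q) (ht : 0 ≤ t) (hm : 1 ≤ m) (hsum : 2 * L + q = 4 * c + 1)
    (hcopL : IsCoprime L m)
    (hk : k = c * m + L * q * t) (h1 : n ∣ q * σ - 2 * L) (h2 : n ∣ m * σ + (m + 4 * L * t))
    (hκ1 : 1 ≤ κ) (hκ2 : κ ≤ m + 2 * L * t - 1) : ∃ i : ℤ, 0 ≤ i ∧ i ≤ 2 * k ∧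
      (n ∣ i * σ - κ ∨ n ∣ i * σ - (m + 2 * L * t - κ)) := by
  have hcop2 : IsCoprime (m + 4 * L * t) (2 * L) := by
    have h3 : IsCoprime m (2 * L) := by
      apply IsCoprime.mul_right _ hcopL.symm
      refine ⟨1, -(m / 2), ?_⟩
      omega
    have e : m + 4 * L * t = m + 2 * L * (2 * t) := by ring
    rw [e]; exact h3.add_mul_left_left _
  obtain ⟨u, v, huv⟩ := hcop2
  have hL2 : (0 : ℤ) < 2 * L := by omega
  have ha0 := Int.emod_nonneg (-κ * u) hL2.ne'
  have ha1 := Int.emod_lt_of_pos (-κ * u) hL2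
  have ha2 : 2 * L ∣ -κ * u - (-κ * u) % (2 * L) := Int.dvd_self_sub_emod
  set a := (-κ * u) % (2 * L) with ha
  have ha3 : 2 * L ∣ κ + a * (m + 4 * L * t) := by
    have e : κ + a * (m + 4 * L * t) = -((-κ * u - a) * (m + 4 * L * t)) +
        2 * L * (κ * v) := by
      linear_combination (-κ) * huv
    rw [e]
    exact dvd_add ((dvd_neg).mpr (Dvd.dvd.mul_right ha2 _)) (Dvd.intro _ rfl)
  rcases Int.lt_or_le a L with h | h
  · obtain ⟨i, hi0, hi1, hi2⟩ := hit_of_class (a := a) hn hL hq ht hm hsum hk h1 h2 hκ1 hκ2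
      ha0 (by omega) ha3
    exact ⟨i, hi0, hi1, Or.inl hi2⟩
  · obtain ⟨i, hi0, hi1, hi2⟩ := hit_of_class (a := 2 * L - 1 - a)
      (κ := m + 2 * L * t - κ) hn hL hq ht hm hsum hk h1 h2 (by omega) (by omega)
      (by omega) (by omega) (by
        have e : m + 2 * L * t - κ + (2 * L - 1 - a) * (m + 4 * L * t) =
            2 * L * (m + 4 * L * t - t) - (κ + a * (m + 4 * L * t)) := by ring
        rw [e]; exact dvd_sub (Dvd.intro _ rfl) ha3)
    exact ⟨i, hi0, hi1, Or.inr hi2⟩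

/-- The square boundary covers all residues. -/
theorem square_cover {n k m c L q t : ℤ} (hodd : n % 2 = 1) (hn : n = 4 * k + m)
    (hL : 1 ≤ L) (hq : 1 ≤ q) (ht : 0 ≤ t) (hm : 1 ≤ m) (hsum : 2 * L + q = 4 * c + 1)
    (hcop : IsCoprime (L * q) m) (hk : k = c * m + L * q * t) :
    ∃ σ : ℤ, σ % 2 = 1 ∧ ∀ z : ℤ, ∃ x y : ℤ, |x + y| + |x - y| = 2 * k ∧
      n ∣ x * σ + y - z := by
  obtain ⟨σ, hσ, h1, h2⟩ := exists_sigma hodd hn hsum hcop.of_mul_left_right hk
  refine ⟨σ, hσ, ?_⟩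
  have hLt : 0 ≤ L * t := mul_nonneg (by omega) ht
  have hcm : 0 ≤ c * m := mul_nonneg (by omega) (by omega)
  have hLqt : L * t * 1 ≤ L * t * q := mul_le_mul_of_nonneg_left hq hLt
  have hρ0 : 0 ≤ k - L * t := by
    have : L * q * t = L * t * q := by ring
    omega
  have hk0 : 0 ≤ k := by omega
  have hkσ : n ∣ k * σ + (k - L * t) := by
    have e : k * σ + (k - L * t) = c * (m * σ + (m + 4 * L * t)) + L * t * (q * σ - 2 * L) := by
      linear_combination (σ + 1) * hk + (L * t) * hsum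
    rw [e]; exact dvd_add (Dvd.dvd.mul_left h2 _) (Dvd.dvd.mul_left h1 _)
  have hnpos : 0 < n := by omega
  intro z
  have hw0 := Int.emod_nonneg (z + (2 * k - L * t)) hnpos.ne'
  have hw1 := Int.emod_lt_of_pos (z + (2 * k - L * t)) hnpos
  have hw2 : n ∣ (z + (2 * k - L * t)) - (z + (2 * k - L * t)) % n := Int.dvd_self_sub_emod
  obtain ⟨w, hw⟩ : ∃ w : ℤ, w = (z + (2 * k - L * t)) % n - (2 * k - L * t) := ⟨_, rfl⟩
  have hwz : n ∣ w - z := by
    have e : w - z = -((z + (2 * k - L * t)) - (z + (2 * k - L * t)) % n) := by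
      rw [hw]; ring
    rw [e]; exact (dvd_neg).mpr hw2
  -- it is enough to reach `w`
  have hred : (∃ x y : ℤ, |x + y| + |x - y| = 2 * k ∧ n ∣ x * σ + y - w) →
      ∃ x y : ℤ, |x + y| + |x - y| = 2 * k ∧ n ∣ x * σ + y - z := by
    rintro ⟨x, y, hxy, hd⟩
    refine ⟨x, y, hxy, ?_⟩
    have e : x * σ + y - z = (x * σ + y - w) + (w - z) := by ring
    rw [e]; exact dvd_add hd hwz
  -- the norm
  have hnorm : ∀ x y : ℤ, (|x| = k ∧ |y| ≤ k) ∨ (|y| = k ∧ |x| ≤ k) →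
      |x + y| + |x - y| = 2 * k := by
    intro x y hxy
    rcases abs_cases x with ⟨a1, a2⟩ | ⟨a1, a2⟩ <;> rcases abs_cases y with ⟨b1, b2⟩ | ⟨b1, b2⟩ <;>
      rcases abs_cases (x + y) with ⟨c1, c2⟩ | ⟨c1, c2⟩ <;>
      rcases abs_cases (x - y) with ⟨d1, d2⟩ | ⟨d1, d2⟩ <;> omega
  apply hred
  rcases Int.lt_or_le (2 * k - L * t) w with hc | hc
  · obtain ⟨i, hi0, hi1, hi2 | hi2⟩ := hit_all (κ := w - (2 * k - L * t)) hodd hn hL hq ht hm hsum
      hcop.of_mul_left_left hk h1 h2 (by omega) (by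
        have : 2 * L * t = 2 * (L * t) := by ring
        omega)
    · refine ⟨i - k, k, hnorm _ _ (Or.inr ⟨abs_of_nonneg hk0, ?_⟩), ?_⟩
      · rw [abs_le]; constructor <;> omega
      · have e : (i - k) * σ + k - w = (i * σ - (w - (2 * k - L * t))) -
            (k * σ + (k - L * t)) := by ring
        rw [e]; exact dvd_sub hi2 hkσ
    · refine ⟨k - i, -k, hnorm _ _ (Or.inr ⟨by rw [abs_neg]; exact abs_of_nonneg hk0, ?_⟩), ?_⟩
      · rw [abs_le]; constructor <;> omega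
      · have e : (k - i) * σ + -k - w = (k * σ + (k - L * t)) -
            (i * σ - (m + 2 * L * t - (w - (2 * k - L * t)))) - n := by
          rw [hn]; ring
        rw [e]; exact dvd_sub (dvd_sub hkσ hi2) dvd_rfl
  · rcases Int.lt_or_le (L * t) w with hc' | hc'
    · refine ⟨-k, w - (k - L * t), hnorm _ _ (Or.inl ⟨by rw [abs_neg]; exact abs_of_nonneg hk0, ?_⟩),
        ?_⟩
      · rw [abs_le]; constructor <;> omega
      · have e : -k * σ + (w - (k - L * t)) - w = -(k * σ + (k - L * t)) := by ring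
        rw [e]; exact (dvd_neg).mpr hkσ
    · refine ⟨k, w + (k - L * t), hnorm _ _ (Or.inl ⟨abs_of_nonneg hk0, ?_⟩), ?_⟩
      · rw [abs_le]; constructor <;> omega
      · have e : k * σ + (w + (k - L * t)) - w = k * σ + (k - L * t) := by ring
        rw [e]; exact hkσ

end Pool.Agent.Lib.MP_3a897b_coQ
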